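import Pool.Agent.RLin.Final

set_option autoImplicit false

/-!
# The levels of a free exponential group are linear

`A` is an associative ring with torsion-free additive group, `G` the free `A`-group on a set `X`.
Let `L_0` be the subgroup generated by `X` and `L_(d+1)` the subgroup generated by all powers `g ^ a`
with `g ∈ L_d`, `a ∈ A`.  Then `G` is the union of the increasing sequence of the `L_d`, and every
`L_d` is isomorphic to a subgroup of `GL_n(K)` with `n = 2 ^ (d + 1)`, `K` a field of characteristic
zero.
-/

universe u

namespace Pool.Agent.Results.MP_aa5517_al.LevelsLinear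

open RLin

theorem result {A : Type u} [Ring A] (htf : ∀ (n : ℕ) (a : A), n ≠ 0 → n • a = 0 → a = 0)
    {X G : Type u} [Group G] (P : AGroup A G) (ι : X → G) (hG : IsFree P ι) :
    (∀ d, level P ι d ≤ level P ι (d + 1)) ∧ (∀ g : G, ∃ d, g ∈ level P ι d) ∧
      ∀ d : ℕ, ∃ (K : Type u) (_ : Field K) (_ : CharZero K)
        (φ : level P ι d →* Matrix.GeneralLinearGroup (Fin (2 ^ (d + 1))) K),
        Function.Injective φ := by
  refine ⟨level_mono P ι, level_union P ι hG, fun d => ?_⟩
  rcases subsingleton_or_nontrivial A with hA | hA
  · have hs : Subsingleton G := by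
      refine ⟨fun x y => ?_⟩
      rw [← P.pow_one x, ← P.pow_one y, Subsingleton.elim (1 : A) 0, P.pow_zero, P.pow_zero]
    have hc : CharZero (ULift.{u} ℚ) :=
      charZero_of_injective_ringHom (f := (ULift.ringEquiv (R := ℚ)).symm.toRingHom)
        (ULift.ringEquiv (R := ℚ)).symm.injective
    refine ⟨ULift.{u} ℚ, inferInstance, hc, 1, ?_⟩
    intro x y _
    exact Subsingleton.elim _ _
  · exact level_linear htf X P ι hG d

end Pool.Agent.Results.MP_aa5517_al.LevelsLinear
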