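import Pool.Agent.FExp.Final

set_option autoImplicit false

/-!
# Free exponential groups over rings containing one half are not linear of degree two

`A` is a commutative ring with torsion-free additive group which contains `1/2`, for instance the
field of rational numbers.  A free `A`-group on at least two generators has no faithful
representation of degree two, linear or projective, over any field.
-/

universe u v

namespace Pool.Agent.Results.MP_aa5517_al.NoDegreeTwo

open Matrix

/-- An `A`-group: a group with exponents in the ring `A`. -/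
structure AGroup (A : Type u) [Ring A] (G : Type u) [Group G] where
  /-- the power `g ^ a` -/
  pow : G → A → G
  pow_one : ∀ g, pow g 1 = g
  pow_zero : ∀ g, pow g 0 = 1
  one_pow : ∀ a, pow 1 a = 1
  pow_add : ∀ g a b, pow g (a + b) = pow g a * pow g b
  pow_mul : ∀ g a b, pow g (a * b) = pow (pow g a) b
  conj_pow : ∀ g h a, pow (h⁻¹ * g * h) a = h⁻¹ * pow g a * h
  mul_pow : ∀ g h a, g * h = h * g → pow (g * h) a = pow g a * pow h a

/-- `G` (with the exponentiation `P`) is the free `A`-group on the family `ι : X → G`: every map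
from `X` to an `A`-group `H` extends uniquely to an `A`-homomorphism from `G` to `H`. -/
def IsFree {A : Type u} [Ring A] {X G : Type u} [Group G] (P : AGroup A G) (ι : X → G) : Prop :=
  ∀ (H : Type u) [Group H] (Q : AGroup A H) (f : X → H),
    ∃! ψ : G →* H, (∀ x, ψ (ι x) = f x) ∧ ∀ g a, ψ (P.pow g a) = Q.pow (ψ g) a

/-- unitriangular matrices over a field of characteristic zero with exponents from `A` -/
noncomputable def utA {A : Type u} [Ring A] {k : Type u} [Field k] [CharZero k] (σ : A →+* k) :
    AGroup A (FExp.UT 7 k) where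
  pow g a := FExp.pw g (σ a)
  pow_one g := by rw [map_one, FExp.pw_one]
  pow_zero g := by rw [map_zero, FExp.pw_zero]
  one_pow a := FExp.one_pw _
  pow_add g a b := by rw [map_add, FExp.pw_add]
  pow_mul g a b := by rw [map_mul, FExp.pw_mul]
  conj_pow g h a := FExp.conj_pw g h _
  mul_pow g h a hgh := FExp.mul_pw g h hgh _

theorem result {A : Type u} [CommRing A] [Nontrivial A]
    (htf : ∀ (n : ℕ) (a : A), n ≠ 0 → n • a = 0 → a = 0)
    (half : A) (hhalf : 2 * half = 1) {X : Type u} [Nontrivial X]
    {G : Type u} [Group G] (P : AGroup A G) (ι : X → G) (hG : IsFree P ι)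
    (K : Type v) [Field K] :
    (∀ φ : G →* GL (Fin 2) K, ¬ Function.Injective φ) ∧
      (∀ φ : G →* ProjGenLinGroup (Fin 2) K, ¬ Function.Injective φ) := by
  classical
  obtain ⟨a, b, hab⟩ := exists_pair_ne X
  obtain ⟨p, hp, hpn⟩ := FExp.exists_field htf
  have hdom : IsDomain (A ⧸ p) := (Ideal.Quotient.isDomain_iff_prime p).2 hp
  let k := FractionRing (A ⧸ p)
  have hk : CharZero k := by
    apply charZero_of_inj_zero
    intro n hn
    have h1 : algebraMap (A ⧸ p) k (n : A ⧸ p) = 0 := by rw [map_natCast, hn]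
    have h2 : (n : A ⧸ p) = 0 := (IsFractionRing.injective (A ⧸ p) k) (by rw [h1, map_zero])
    apply hpn
    rw [← Ideal.Quotient.eq_zero_iff_mem, map_natCast, h2]
  let σ : A →+* k := (algebraMap (A ⧸ p) k).comp (Ideal.Quotient.mk p)
  obtain ⟨hUx, hUy, -⟩ := FExp.un_int
  let f : X → FExp.UT 7 k := fun z =>
    if z = a then FExp.toUT (FExp.cst k FExp.Mx) (FExp.cst_un hUx)
    else FExp.toUT (FExp.cst k FExp.My) (FExp.cst_un hUy)
  obtain ⟨ψ, ⟨hψ, -⟩, -⟩ := hG (FExp.UT 7 k) (utA σ) f
  have hψa : FExp.mat (ψ (ι a)) = FExp.cst k FExp.Mx := by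
    rw [hψ]
    simp only [f, if_pos rfl, FExp.mat_toUT]
  have hψb : FExp.mat (ψ (ι b)) = FExp.cst k FExp.My := by
    rw [hψ]
    simp only [f, if_neg hab.symm, FExp.mat_toUT]
  have hsq : ∀ g : G, P.pow g half * P.pow g half = g := by
    intro g
    rw [← P.pow_add, ← two_mul, hhalf, P.pow_one]
  set x := ι a with hx
  set y := ι b with hy
  set d := P.pow (y * y * (x * x)⁻¹) half with hd
  set e := P.pow (y * y * (x * x * (x * x))⁻¹) half with he
  have hd1 : d * d * (x * x) = y * y := by rw [hd, hsq, inv_mul_cancel_right]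
  have he1 : e * e * (x * x * (x * x)) = y * y := by rw [he, hsq, inv_mul_cancel_right]
  have hcert := FExp.cert (ψ x) (ψ y) (ψ d) (ψ e) (ψ (y⁻¹ * d * x)) (ψ (y⁻¹ * e * (x * x)))
    hψa hψb (by rw [← map_mul, ← map_mul, ← map_mul, hd1, map_mul])
    (by rw [← map_mul, ← map_mul, ← map_mul, ← map_mul, he1, map_mul])
    (by rw [← map_mul, ← map_mul]; congr 1; group)
    (by rw [← map_mul, ← map_mul, ← map_mul]; congr 1; group)
  have hc : ∀ {p q : G}, Commute p q → Commute (ψ p) (ψ q) := fun h => h.map ψ
  obtain ⟨c1, c2, c3, c4, c5⟩ := hcert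
  refine FExp.core x y d e hd1 he1 (fun h => c1 ?_) (fun h => c2 ?_) (fun h => c3 ?_)
    (fun h => c4 ?_) (fun h => c5 (hc h))
  · rw [← map_mul]
    exact hc h
  · rw [← map_mul]
    exact hc h
  · rw [← map_mul]
    exact hc h
  · rw [← map_mul]
    exact hc h

end Pool.Agent.Results.MP_aa5517_al.NoDegreeTwo
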