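import Pool.Agent.RNt.Final

set_option autoImplicit false

/-!
# Free exponential groups are linear of degree two up to an abelian torsion group

`A` is an associative ring with torsion-free additive group, `G` the free `A`-group on a set `X`.
Then `G` has a normal subgroup `N` which contains `X`, such that `G / N` is an abelian torsion group
in which all orders are invertible in `A`, and such that `N` is isomorphic to a subgroup of an
ultrapower of the free group on `X`, and to a subgroup of `GL_2(K)`, `K` a field of characteristic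
zero.  Every finite subset of `G` lies in a normal subgroup `M` of `G`, `N ≤ M`, `[M : N]` finite,
which is isomorphic to a subgroup of `GL_n(K)`, `n = 2 [M : N]`.
-/

universe u

namespace Pool.Agent.Results.MP_aa5517_al.NormalPart

open RLin RNt

theorem result {A : Type u} [Ring A] (htf : ∀ (n : ℕ) (a : A), n ≠ 0 → n • a = 0 → a = 0)
    {X G : Type u} [Group G] (P : AGroup A G) (ι : X → G) (hG : IsFree P ι) :
    ∃ N : Subgroup G, N.Normal ∧ (∀ x, ι x ∈ N) ∧ (∀ g h : G, g * h * g⁻¹ * h⁻¹ ∈ N) ∧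
      (∀ g : G, ∃ k : ℕ, k ≠ 0 ∧ IsUnit (k : A) ∧ g ^ k ∈ N) ∧
      (∃ (S : Type u) (U : Ultrafilter S) (θ : N →* (U : Filter S).Germ (FreeGroup X)),
        Function.Injective θ) ∧
      ∃ (K : Type u) (_ : Field K) (_ : CharZero K),
        (∃ φ : N →* Matrix.GeneralLinearGroup (Fin 2) K, Function.Injective φ) ∧
        ∀ S : Finset G, ∃ M : Subgroup G, M.Normal ∧ N ≤ M ∧ (∀ g ∈ S, g ∈ M) ∧
          (N.subgroupOf M).FiniteIndex ∧
          ∃ θ : M →* Matrix.GeneralLinearGroup (Fin (2 * (N.subgroupOf M).index)) K,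
            Function.Injective θ := by
  have key : ∃ N : Subgroup G, N.Normal ∧ (∀ x, ι x ∈ N) ∧ (∀ g h : G, g * h * g⁻¹ * h⁻¹ ∈ N) ∧
      (∀ g : G, ∃ k : ℕ, k ≠ 0 ∧ IsUnit (k : A) ∧ g ^ k ∈ N) ∧
      ∃ (S : Type u) (U : Ultrafilter S) (θ : N →* (U : Filter S).Germ (FreeGroup X)),
        Function.Injective θ := by
    rcases subsingleton_or_nontrivial A with hA | hA
    · have hs : Subsingleton G := by
        refine ⟨fun x y => ?_⟩
        rw [← P.pow_one x, ← P.pow_one y, Subsingleton.elim (1 : A) 0, P.pow_zero, P.pow_zero]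
      refine ⟨⊤, inferInstance, fun _ => Subgroup.mem_top _, fun _ _ => Subgroup.mem_top _,
        fun _ => ⟨1, one_ne_zero, by rw [Nat.cast_one]; exact isUnit_one, Subgroup.mem_top _⟩,
        PUnit, pure PUnit.unit, 1, ?_⟩
      intro x y _
      exact Subsingleton.elim _ _
    · exact main_nt htf X P ι hG
  obtain ⟨N, h1, h2, h3, h4, S, U, θ, hθ⟩ := key
  obtain ⟨K, iK, iC, ρ, hρ⟩ := exists_free_rep X
  obtain ⟨K', iK', iC', φ, hφ⟩ := ultra_gl U ρ hρ
  have h5 : Function.Injective (φ.comp θ) := hφ.comp hθ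
  exact ⟨N, h1, h2, h3, h4, ⟨S, U, θ, hθ⟩, K', iK', iC', ⟨φ.comp θ, h5⟩,
    exists_norm_lin N h3 (fun g => (h4 g).imp fun k hk => ⟨hk.1, hk.2.2⟩) (φ.comp θ) h5⟩

end Pool.Agent.Results.MP_aa5517_al.NormalPart
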